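import Pool.Agent.Q7.CE.Stm2
import Pool.Agent.Q190.CE.EKA

/-!
# Project CE (helper7), job EVB (helper251)
-/

set_option autoImplicit false

namespace Pool.Agent.Q251.CE

open NumberField IsDedekindDomain WeierstrassCurve
open Pool.Agent.Q7.CE Pool.Agent.Q190.CE
open Pool.Agent.Q7.LK (Many Cond IsPow)
open Pool.Agent.TH841.SH.D (Coch Pt act Gal IsCoc IsCob LocTriv)
open Pool.Agent.TH841.NF.D (Sha IsShaCoc shaCoc)

variable {F : Type} [Field F] [NumberField F]

/-- the values of `tt` -/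
theorem tt_vals {D : F} (h3 : (3 : AlgebraicClosure F) ≠ 0) (hD : D ≠ 0) (c : ZMod 3) :
    (tt D h3 hD c : Pt (ED D) (AlgebraicClosure F)) = 0 ∨ ∃ y h, (tt D h3 hD c : Pt (ED D) (AlgebraicClosure F)) =
      Affine.Point.some 0 y h := by
  have h1 : c.val = 0 ∨ c.val = 1 ∨ c.val = 2 := by
    have := ZMod.val_lt c
    omega
  unfold tt
  rcases h1 with h1 | h1 | h1
  · left
    rw [h1, zero_nsmul]
  · right
    rw [h1, one_nsmul]
    exact ⟨0, _, rfl⟩
  · right
    obtain ⟨h', e⟩ := two_T (F := F) (L := AlgebraicClosure F) h3 hD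
    rw [h1, e]
    exact ⟨_, _, rfl⟩

/-- the group of the locally trivial cocycles with values in `{0, T, -T}` -/
noncomputable def tcoc (D : F) (hD : D ≠ 0) : AddSubgroup (Coch (ED D)) where
  carrier := {f | TCoc D f}
  zero_mem' := ⟨(shaCoc (ED D)).zero_mem, fun _ => Or.inl rfl⟩
  add_mem' := by
    intro f g hf hg
    have h3 : (3 : AlgebraicClosure F) ≠ 0 := three_ne_zero
    refine ⟨(shaCoc (ED D)).add_mem hf.1 hg.1, fun σ => ?_⟩
    obtain ⟨c, hc⟩ := ker_tt h3 hD (f σ) (hf.2 σ)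
    obtain ⟨c', hc'⟩ := ker_tt h3 hD (g σ) (hg.2 σ)
    have e : (f + g) σ = tt D h3 hD (c + c') := by
      change f σ + g σ = _
      rw [tt_add, hc, hc']
    rw [e]
    exact tt_vals h3 hD _
  neg_mem' := by
    intro f hf
    have h3 : (3 : AlgebraicClosure F) ≠ 0 := three_ne_zero
    refine ⟨(shaCoc (ED D)).neg_mem hf.1, fun σ => ?_⟩
    obtain ⟨c, hc⟩ := ker_tt h3 hD (f σ) (hf.2 σ)
    have e : (-f) σ = tt D h3 hD (-c) := by
      change -(f σ) = _
      have h1 := tt_add (L := AlgebraicClosure F) h3 hD (-c) c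
      rw [neg_add_cancel] at h1
      have h0 : (tt D h3 hD 0 : Pt (ED D) (AlgebraicClosure F)) = 0 := by
        unfold tt
        rw [ZMod.val_zero, zero_nsmul]
      rw [h0] at h1
      rw [hc]
      exact (eq_neg_of_add_eq_zero_left h1.symm).symm
    rw [e]
    exact tt_vals h3 hD _

/-- the group of the coboundaries of the points of order dividing `3` -/
noncomputable def cob3 (D : F) : AddSubgroup (Coch (ED D)) where
  carrier := {f | Cob3 D f}
  zero_mem' := ⟨0, smul_zero _, fun σ => by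
    change (0 : Pt (ED D) (AlgebraicClosure F)) = act (ED D) σ.toAlgHom 0 - 0
    rw [map_zero, sub_zero]⟩
  add_mem' := by
    rintro f g ⟨R, h1, h2⟩ ⟨R', h1', h2'⟩
    refine ⟨R + R', by rw [smul_add, h1, h1', add_zero], fun σ => ?_⟩
    change f σ + g σ = _
    rw [h2, h2', map_add]
    abel
  neg_mem' := by
    rintro f ⟨R, h1, h2⟩
    refine ⟨-R, by rw [smul_neg, h1, neg_zero], fun σ => ?_⟩
    change -(f σ) = _
    rw [h2, map_neg]
    abel

theorem three_tcoc {D : F} (hD : D ≠ 0) {f : Coch (ED D)} (hf : f ∈ tcoc D hD) : (3 : ℕ) • f = 0 := by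
  have h3 : (3 : AlgebraicClosure F) ≠ 0 := three_ne_zero
  funext σ
  obtain ⟨c, hc⟩ := ker_tt h3 hD (f σ) (hf.2 σ)
  change (3 : ℕ) • f σ = 0
  rw [hc]
  unfold tt
  rw [← mul_nsmul, mul_comm, mul_nsmul, three_T, nsmul_zero]

/-- the group of the classes -/
abbrev VV (D : F) (hD : D ≠ 0) : Type := tcoc D hD ⧸ (cob3 D).addSubgroupOf (tcoc D hD)

theorem three_VV {D : F} (hD : D ≠ 0) (x : VV D hD) : (3 : ℕ) • x = 0 := by
  obtain ⟨f, rfl⟩ := QuotientAddGroup.mk_surjective x
  rw [← QuotientAddGroup.mk_nsmul]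
  have : (3 : ℕ) • f = 0 := Subtype.ext (three_tcoc hD f.2)
  rw [this]
  rfl

/-- vector spaces over `ZMod 3`: many elements give more -/
theorem span_card {V : Type} [AddCommGroup V] (h3 : ∀ x : V, (3 : ℕ) • x = 0) (s : ℕ) (v : Fin (3 ^ s + 1) → V)
    (hv : Function.Injective v) : ∃ x : Fin (3 ^ (s + 1) - 1) → V, Function.Injective x ∧ ∀ i, x i ≠ 0 := by
  classical
  letI : Module (ZMod 3) V := AddCommGroup.zmodModule h3
  haveI : Fact (Nat.Prime 3) := ⟨Nat.prime_three⟩
  set S := Submodule.span (ZMod 3) (Set.range v) with hS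
  haveI : FiniteDimensional (ZMod 3) S := FiniteDimensional.span_of_finite _ (Set.finite_range v)
  haveI : Finite S := Module.finite_of_finite (ZMod 3)
  haveI : Fintype S := Fintype.ofFinite S
  have hcard : Fintype.card S = 3 ^ Module.finrank (ZMod 3) S := by
    rw [Module.card_eq_pow_finrank (K := ZMod 3) (V := S), ZMod.card]
  have h1 : 3 ^ s + 1 ≤ Fintype.card S := by
    have := Fintype.card_le_of_injective (fun i => (⟨v i, Submodule.subset_span ⟨i, rfl⟩⟩ : S))
      (fun i i' h => hv (Subtype.ext_iff.1 h))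
    rwa [Fintype.card_fin] at this
  have h2 : s < Module.finrank (ZMod 3) S := by
    rw [hcard] at h1
    exact (Nat.pow_lt_pow_iff_right (by norm_num)).1 (Nat.lt_of_succ_le h1)
  have h4 : 3 ^ (s + 1) ≤ Fintype.card S := by
    rw [hcard]
    exact Nat.pow_le_pow_right (by norm_num) h2
  have h5 : Fintype.card {x : S // x ≠ 0} = Fintype.card S - 1 := by
    rw [Fintype.card_subtype_compl, Fintype.card_subtype_eq]
  have h6 : Fintype.card (Fin (3 ^ (s + 1) - 1)) ≤ Fintype.card {x : S // x ≠ 0} := by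
    rw [h5, Fintype.card_fin]
    omega
  obtain ⟨e⟩ := Function.Embedding.nonempty_of_card_le h6
  refine ⟨fun i => ((e i : S) : V), fun i i' h => e.injective (Subtype.ext (Subtype.ext h)), fun i h => ?_⟩
  exact (e i).2 (Subtype.ext h)

theorem evb : S_EKUM2 → S_ECOND → S_EVB := by
  intro hK hC F _ _ ω D hω hD s hM f hf
  by_contra hcon
  push Not at hcon
  apply hM
  set v : Fin (3 ^ s + 1) → VV D hD := fun i => QuotientAddGroup.mk ⟨f i, hf i⟩ with hv
  have hinj : Function.Injective v := by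
    intro i i' h
    by_contra hne
    apply hcon i i' hne
    have h1 := QuotientAddGroup.eq.1 h
    rw [AddSubgroup.mem_addSubgroupOf] at h1
    have h2 := (cob3 D).neg_mem h1
    have h3 : -((-(⟨f i, hf i⟩ : tcoc D hD) + ⟨f i', hf i'⟩ : tcoc D hD) : Coch (ED D)) = f i - f i' := by
      change -(-(f i) + f i') = _
      abel
    rw [h3] at h2
    exact h2
  obtain ⟨x, hx, hx0⟩ := span_card (three_VV hD) s v hinj
  choose g hg using fun i => QuotientAddGroup.mk_surjective (x i)
  obtain ⟨a, h1, h2, h3⟩ := hK F ω D hω hD _ (fun i => (g i : Coch (ED D))) (fun i => (g i).2)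
  refine ⟨a, fun i => ⟨hC F D (a i) hD (h1 i), fun j hj => ?_⟩, fun i i' hne j hj => ?_⟩
  · apply hx0 i
    rw [← hg i, QuotientAddGroup.eq_zero_iff, AddSubgroup.mem_addSubgroupOf]
    exact h2 i j hj
  · apply hne
    apply hx
    have h4 := h3 i i' j hj
    rw [← hg i, ← hg i', QuotientAddGroup.eq, AddSubgroup.mem_addSubgroupOf]
    have h5 := (cob3 D).neg_mem (show (g i : Coch (ED D)) - g i' ∈ cob3 D from h4)
    have h6 : ((-(g i) + g i' : tcoc D hD) : Coch (ED D)) = -((g i : Coch (ED D)) - g i') := by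
      change -(g i : Coch (ED D)) + g i' = _
      abel
    rw [h6]
    exact h5

end Pool.Agent.Q251.CE
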